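import Pool.Agent.helper22.OB.SpecD

set_option autoImplicit false
set_option linter.unusedSectionVars false

namespace Pool.Agent.OB

open Pool.Agent.helper58.DC Pool.Agent.DI Pool.Agent.GR

/-- exponents which separate the `p`-part and the `p`-regular part -/
theorem DGN_exp {G : Type} [Group G] {p : ℕ} (hp : p.Prime) {a a' b b' : G} {k k' : ℕ}
    (ha : a ^ p ^ k = 1) (ha' : a' ^ p ^ k' = 1) (hb : ¬ p ∣ orderOf b) (hb' : ¬ p ∣ orderOf b') :
    ∃ e f : ℕ, a ^ e = a ∧ a' ^ e = a' ∧ b ^ e = 1 ∧ b' ^ e = 1 ∧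
      a ^ f = 1 ∧ a' ^ f = 1 ∧ b ^ f = b ∧ b' ^ f = b' := by
  have hcop : Nat.Coprime (p ^ (k + k')) (orderOf b * orderOf b') := by
    apply Nat.Coprime.pow_left
    rw [Nat.coprime_mul_iff_right]
    exact ⟨(Nat.Prime.coprime_iff_not_dvd hp).2 hb, (Nat.Prime.coprime_iff_not_dvd hp).2 hb'⟩
  obtain ⟨e, he1, he2⟩ := Nat.chineseRemainder hcop 1 0
  obtain ⟨f, hf1, hf2⟩ := Nat.chineseRemainder hcop 0 1
  have hoa : orderOf a ∣ p ^ (k + k') :=
    (orderOf_dvd_of_pow_eq_one ha).trans (pow_dvd_pow p (Nat.le_add_right k k'))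
  have hoa' : orderOf a' ∣ p ^ (k + k') :=
    (orderOf_dvd_of_pow_eq_one ha').trans (pow_dvd_pow p (Nat.le_add_left k' k))
  have hob : orderOf b ∣ orderOf b * orderOf b' := Dvd.intro _ rfl
  have hob' : orderOf b' ∣ orderOf b * orderOf b' := Dvd.intro_left _ rfl
  have key : ∀ (c : G) (n m : ℕ), n ≡ m [MOD orderOf c] → c ^ n = c ^ m := fun c n m h =>
    pow_eq_pow_iff_modEq.2 h
  refine ⟨e, f, ?_, ?_, ?_, ?_, ?_, ?_, ?_, ?_⟩
  · simpa using key a e 1 (he1.of_dvd hoa)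
  · simpa using key a' e 1 (he1.of_dvd hoa')
  · simpa using key b e 0 (he2.of_dvd hob)
  · simpa using key b' e 0 (he2.of_dvd hob')
  · simpa using key a f 0 (hf1.of_dvd hoa)
  · simpa using key a' f 0 (hf1.of_dvd hoa')
  · simpa using key b f 1 (hf2.of_dvd hob)
  · simpa using key b' f 1 (hf2.of_dvd hob')

theorem DGN_uniq {G : Type} [Group G] {p : ℕ} (hp : p.Prime) {a a' b b' : G} {k k' : ℕ}
    (ha : a ^ p ^ k = 1) (ha' : a' ^ p ^ k' = 1) (hb : ¬ p ∣ orderOf b) (hb' : ¬ p ∣ orderOf b')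
    (h1 : Commute a b) (h2 : Commute a' b') (h : a * b = a' * b') : a = a' ∧ b = b' := by
  obtain ⟨e, f, e1, e2, e3, e4, f1, f2, f3, f4⟩ := DGN_exp hp ha ha' hb hb'
  constructor
  · have h3 : (a * b) ^ e = (a' * b') ^ e := by rw [h]
    rw [h1.mul_pow, h2.mul_pow, e1, e2, e3, e4, mul_one, mul_one] at h3
    exact h3
  · have h3 : (a * b) ^ f = (a' * b') ^ f := by rw [h]
    rw [h1.mul_pow, h2.mul_pow, f1, f2, f3, f4, one_mul, one_mul] at h3
    exact h3

/-- Sylow subgroups of a subgroup are conjugate -/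
theorem DGN_syl {G : Type} [Group G] [Finite G] {p : ℕ} [Fact p.Prime] (K D₁ D₂ : Subgroup G)
    (h1 : D₁ ≤ K) (h2 : D₂ ≤ K) (c1 : Nat.card D₁ = pp p K) (c2 : Nat.card D₂ = pp p K) :
    ∃ c ∈ K, ∀ d, d ∈ D₁ → c * d * c⁻¹ ∈ D₂ := by
  have hc : ∀ D : Subgroup G, D ≤ K → Nat.card D = pp p K →
      Nat.card (D.subgroupOf K) = p ^ (Nat.card K).factorization p := by
    intro D hD hcD
    rw [Nat.factorization_def _ (Fact.out : p.Prime)]
    rw [Nat.card_congr (Subgroup.subgroupOfEquivOfLe hD).toEquiv, hcD]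
    rfl
  let P₁ : Sylow p K := Sylow.ofCard (D₁.subgroupOf K) (hc D₁ h1 c1)
  let P₂ : Sylow p K := Sylow.ofCard (D₂.subgroupOf K) (hc D₂ h2 c2)
  obtain ⟨c, hc'⟩ := MulAction.exists_smul_eq K P₁ P₂
  refine ⟨c, c.2, fun d hd => ?_⟩
  have h3 : (⟨d, h1 hd⟩ : K) ∈ (P₁ : Subgroup K) := by
    show (⟨d, h1 hd⟩ : K) ∈ D₁.subgroupOf K
    rw [Subgroup.mem_subgroupOf]
    exact hd
  have h4 : MulAut.conj c • (⟨d, h1 hd⟩ : K) ∈ ((c • P₁ : Sylow p K) : Subgroup K) := by
    rw [Sylow.coe_subgroup_smul]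
    exact Subgroup.smul_mem_pointwise_smul _ _ _ h3
  rw [hc'] at h4
  have h5 : MulAut.conj c • (⟨d, h1 hd⟩ : K) ∈ D₂.subgroupOf K := h4
  rw [Subgroup.mem_subgroupOf] at h5
  exact h5

section

variable {G : Type} [Group G] [Finite G] {p : ℕ} [Fact p.Prime] {D : Subgroup G} {x z : G}

theorem DGN_zx (hx : ¬ p ∣ orderOf x) (hD : D ≤ Subgroup.centralizer {x}) (hpD : IsPGroup p D)
    (hz : z ∈ D) : ∃ e f : ℕ, (z * x) ^ e = z ∧ (z * x) ^ f = x := by
  obtain ⟨k, hk⟩ := hpD ⟨z, hz⟩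
  have hk' : z ^ p ^ k = 1 := by
    have := congrArg (Subtype.val) hk
    simpa using this
  obtain ⟨e, f, e1, -, e3, -, f1, -, f3, -⟩ := DGN_exp (Fact.out : p.Prime) hk' hk' hx hx
  have hcom : Commute z x := by
    have := hD hz
    rw [Subgroup.mem_centralizer_iff] at this
    exact (this x rfl).symm
  refine ⟨e, f, ?_, ?_⟩
  · rw [hcom.mul_pow, e1, e3, mul_one]
  · rw [hcom.mul_pow, f1, f3, one_mul]

theorem DGN_key (hx : ¬ p ∣ orderOf x) (hD : D ≤ Subgroup.centralizer {x}) (hpD : IsPGroup p D)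
    (hcard : Nat.card D = pp p (Subgroup.centralizer ({x} : Set G))) (hz : z ∈ D)
    (hzD : ∀ d ∈ D, z * d = d * z) {y : G} (hy : y ∈ cz D) (hyc : y ∈ conjugatesOf (z * x)) :
    ∃ n ∈ nz D, n * (z * x) * n⁻¹ = y := by
  obtain ⟨h, hh⟩ := isConj_iff.1 hyc
  set Cy : Subgroup G := Subgroup.centralizer ({y} : Set G) with hCy
  set Dh : Subgroup G := D.map (MulAut.conj h).toMonoidHom with hDh
  -- powers of z x
  obtain ⟨e, f, -, hf⟩ := DGN_zx hx hD hpD hz
  have hDx : ∀ d ∈ D, x * d = d * x := by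
    intro d hd
    have := hD hd
    rw [Subgroup.mem_centralizer_iff] at this
    exact this x rfl
  have hDCy : D ≤ Cy := by
    intro d hd
    rw [hCy, Subgroup.mem_centralizer_iff]
    intro t ht
    rw [Set.mem_singleton_iff] at ht
    rw [ht]
    rw [Subgroup.mem_centralizer_iff] at hy
    exact (hy d hd).symm
  have hDhCy : Dh ≤ Cy := by
    rintro _ ⟨d, hd, rfl⟩
    rw [hCy, Subgroup.mem_centralizer_iff]
    intro t ht
    rw [Set.mem_singleton_iff] at ht
    rw [ht, ← hh]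
    show h * (z * x) * h⁻¹ * (h * d * h⁻¹) = h * d * h⁻¹ * (h * (z * x) * h⁻¹)
    have h1 : z * x * d = d * (z * x) := by
      rw [mul_assoc, hDx d hd, ← mul_assoc, hzD d hd, mul_assoc]
    have h2 : h * (z * x) * h⁻¹ * (h * d * h⁻¹) = h * (z * x * d) * h⁻¹ := by group
    have h3 : h * d * h⁻¹ * (h * (z * x) * h⁻¹) = h * (d * (z * x)) * h⁻¹ := by group
    rw [h2, h3, h1]
  have hcDh : Nat.card Dh = Nat.card D := by
    rw [hDh]
    exact (Nat.card_congr (D.equivMapOfInjective _ (MulAut.conj h).injective).toEquiv).symm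
  -- the p-part of C(y)
  have hCyle : Cy ≤ (Subgroup.centralizer ({x} : Set G)).map (MulAut.conj h).toMonoidHom := by
    intro t ht
    rw [hCy, Subgroup.mem_centralizer_iff] at ht
    have ht' := ht y rfl
    refine ⟨h⁻¹ * t * h, ?_, by
      show h * (h⁻¹ * t * h) * h⁻¹ = t
      group⟩
    show h⁻¹ * t * h ∈ Subgroup.centralizer ({x} : Set G)
    rw [Subgroup.mem_centralizer_iff]
    intro s hs
    rw [Set.mem_singleton_iff] at hs
    rw [hs]
    have h1 : Commute (z * x) (h⁻¹ * t * h) := by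
      show z * x * (h⁻¹ * t * h) = h⁻¹ * t * h * (z * x)
      have h2 : z * x * (h⁻¹ * t * h) = h⁻¹ * (h * (z * x) * h⁻¹ * t) * h := by group
      have h3 : h⁻¹ * t * h * (z * x) = h⁻¹ * (t * (h * (z * x) * h⁻¹)) * h := by group
      rw [h2, h3, hh, ht']
    have h4 := h1.pow_left f
    rw [hf] at h4
    exact h4
  have hppD : Nat.card D = p ^ padicValNat p (Nat.card D) := by
    obtain ⟨k, hk⟩ := (IsPGroup.iff_card).1 hpD
    rw [hk, padicValNat.prime_pow]
  have hcmap : Nat.card ((Subgroup.centralizer ({x} : Set G)).map (MulAut.conj h).toMonoidHom) =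
      Nat.card (Subgroup.centralizer ({x} : Set G)) :=
    (Nat.card_congr ((Subgroup.centralizer ({x} : Set G)).equivMapOfInjective _
      (MulAut.conj h).injective).toEquiv).symm
  have hle1 : pp p Cy ≤ Nat.card D := by
    rw [hcard]
    unfold pp
    apply Nat.pow_le_pow_right (Fact.out : p.Prime).pos
    rw [← hcmap]
    exact (padicValNat_dvd_iff_le (Nat.card_pos.ne')).1
      ((pow_padicValNat_dvd).trans (Subgroup.card_dvd_of_le hCyle))
  have hle2 : Nat.card D ≤ pp p Cy := by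
    rw [hppD]
    unfold pp
    apply Nat.pow_le_pow_right (Fact.out : p.Prime).pos
    exact (padicValNat_dvd_iff_le (Nat.card_pos.ne')).1
      ((pow_padicValNat_dvd).trans (Subgroup.card_dvd_of_le hDCy))
  have hcy : Nat.card D = pp p Cy := le_antisymm hle2 hle1
  obtain ⟨c, hc, hcd⟩ := DGN_syl (p := p) Cy Dh D hDhCy hDCy (hcDh.trans hcy) hcy
  refine ⟨c * h, ?_, ?_⟩
  · have h1 : ∀ d ∈ D, c * h * d * (c * h)⁻¹ ∈ D := by
      intro d hd
      have h2 := hcd (h * d * h⁻¹) ⟨d, hd, rfl⟩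
      have h3 : c * h * d * (c * h)⁻¹ = c * (h * d * h⁻¹) * c⁻¹ := by group
      rw [h3]
      exact h2
    have h4 : D.map (MulAut.conj (c * h)).toMonoidHom = D := by
      apply Subgroup.eq_of_le_of_card_ge
      · rintro _ ⟨d, hd, rfl⟩
        exact h1 d hd
      · exact (Nat.card_congr (D.equivMapOfInjective _ (MulAut.conj (c * h)).injective).toEquiv).le
    exact Subgroup.mem_normalizer_iff_map_conj_eq.2 h4
  · rw [hCy, Subgroup.mem_centralizer_iff] at hc
    have h1 := hc y rfl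
    have h2 : c * h * (z * x) * (c * h)⁻¹ = c * (h * (z * x) * h⁻¹) * c⁻¹ := by group
    rw [h2, hh, ← h1, mul_inv_cancel_right]

theorem DGN_nz_conj {g d : G} (hg : g ∈ nz D) (hd : d ∈ D) : g * d * g⁻¹ ∈ D :=
  (Subgroup.mem_normalizer_iff.1 hg d).1 hd

theorem DGN_nz_conj' {g d : G} (hg : g ∈ nz D) (hd : d ∈ D) : g⁻¹ * d * g ∈ D :=
  (Subgroup.mem_normalizer_iff''.1 hg d).1 hd

theorem DGN_central {g : G} (hg : g ∈ nz D) (hzD : ∀ d ∈ D, z * d = d * z) :
    ∀ d ∈ D, g * z * g⁻¹ * d = d * (g * z * g⁻¹) := by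
  intro d hd
  have h1 := hzD _ (DGN_nz_conj' hg hd)
  have h2 : g * z * g⁻¹ * d = g * (z * (g⁻¹ * d * g)) * g⁻¹ := by group
  rw [h2, h1]
  group

theorem DGN_ncard (Nx : Subgroup G) (z : G) :
    {z' : G | ∃ k ∈ Nx, k * z * k⁻¹ = z'}.ncard =
      (Subgroup.centralizer ({z} : Set G)).relIndex Nx := by
  let act : MulAction Nx G :=
    MulAction.compHom G ((MulAut.conj : G →* MulAut G).comp Nx.subtype)
  have h1 := @MulAction.index_stabilizer Nx G _ act z
  have h2 : @MulAction.stabilizer Nx G _ act z =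
      (Subgroup.centralizer ({z} : Set G)).subgroupOf Nx := by
    ext k
    rw [Subgroup.mem_subgroupOf, Subgroup.mem_centralizer_iff]
    constructor
    · intro h t ht
      rw [Set.mem_singleton_iff] at ht
      rw [ht]
      have h3 : (k : G) * z * (k : G)⁻¹ = z := h
      rw [mul_inv_eq_iff_eq_mul] at h3
      exact h3.symm
    · intro h
      have h3 := h z rfl
      have h4 : (k : G) * z * (k : G)⁻¹ = z := by
        rw [← h3, mul_inv_cancel_right]
      exact h4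
  have h5 : @MulAction.orbit Nx G act.toSMul z = {z' : G | ∃ k ∈ Nx, k * z * k⁻¹ = z'} := by
    ext t
    constructor
    · rintro ⟨k, hk⟩
      exact ⟨k, k.2, hk⟩
    · rintro ⟨k, hk, hk2⟩
      exact ⟨⟨k, hk⟩, hk2⟩
  rw [h2, h5] at h1
  exact h1.symm

theorem DGN_not_dvd (hD : D ≤ Subgroup.centralizer {x})
    (hcard : Nat.card D = pp p (Subgroup.centralizer ({x} : Set G)))
    (hzD : ∀ d ∈ D, z * d = d * z) :
    ¬ p ∣ (Subgroup.centralizer ({z} : Set G)).relIndex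
      (Subgroup.normalizer (D : Set G) ⊓ Subgroup.centralizer {x}) := by
  intro hdvd
  set Cx : Subgroup G := Subgroup.centralizer ({x} : Set G) with hCx
  set Nx : Subgroup G := Subgroup.normalizer (D : Set G) ⊓ Cx with hNx
  have h1 : D ≤ Subgroup.centralizer ({z} : Set G) ⊓ Nx := by
    refine le_inf ?_ (le_inf Subgroup.le_normalizer hD)
    intro d hd
    rw [Subgroup.mem_centralizer_iff]
    intro t ht
    rw [Set.mem_singleton_iff] at ht
    rw [ht]
    exact hzD d hd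
  have h2 := Subgroup.relIndex_mul_relIndex D (Subgroup.centralizer ({z} : Set G) ⊓ Nx) Nx h1
    inf_le_right
  rw [Subgroup.inf_relIndex_right] at h2
  have h3 := Subgroup.relIndex_mul_relIndex D Nx Cx (h1.trans inf_le_right) inf_le_right
  have h4 : p ∣ D.relIndex Cx := by
    rw [← h3, ← h2]
    exact Dvd.dvd.mul_right (Dvd.dvd.mul_left hdvd _) _
  have h5 : Nat.card D * D.relIndex Cx = Nat.card Cx := by
    have h6 := Subgroup.card_mul_index (D.subgroupOf Cx)
    rw [Nat.card_congr (Subgroup.subgroupOfEquivOfLe hD).toEquiv] at h6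
    exact h6
  have h7 : p ^ (padicValNat p (Nat.card Cx) + 1) ∣ Nat.card Cx := by
    have h8 : Nat.card D = p ^ padicValNat p (Nat.card Cx) := hcard
    have h9 : Nat.card D * p ∣ Nat.card D * D.relIndex Cx := mul_dvd_mul_left _ h4
    rw [h5] at h9
    rw [pow_succ, ← h8]
    exact h9
  exact pow_succ_padicValNat_not_dvd (Nat.card_pos.ne') h7

theorem DGN_pow (hpD : IsPGroup p D) {d : G} (hd : d ∈ D) : ∃ k, d ^ p ^ k = 1 := by
  obtain ⟨k, hk⟩ := hpD ⟨d, hd⟩
  refine ⟨k, ?_⟩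
  have := congrArg (Subtype.val) hk
  simpa using this

theorem DGN_order (g x : G) : orderOf (g * x * g⁻¹) = orderOf x :=
  orderOf_injective (MulAut.conj g).toMonoidHom (MulAut.conj g).injective x

end

theorem DGN : DGN_stmt := by
  intro p _ G _ _ D x z hx hD hpD hcard hz hzD
  have hp : p.Prime := Fact.out
  have hxD : ∀ d ∈ D, x * d = d * x := by
    intro d hd
    have := hD hd
    rw [Subgroup.mem_centralizer_iff] at this
    exact this x rfl
  have hzx : Commute z x := (hxD z hz).symm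
  have hczmem : ∀ y : G, (∀ d ∈ D, y * d = d * y) → y ∈ cz D := by
    intro y hy
    rw [Subgroup.mem_centralizer_iff]
    intro d hd
    exact (hy d hd).symm
  refine ⟨{z' : G | ∃ k ∈ Subgroup.normalizer (D : Set G) ⊓ Subgroup.centralizer {x},
    k * z * k⁻¹ = z'}.ncard, ?_, ?_, ?_⟩
  · rw [DGN_ncard]
    exact DGN_not_dvd hD hcard hzD
  · intro x' hx' hx'c
    obtain ⟨n, hn, hnx⟩ := DGN_key hx hD hpD hcard (z := 1) D.one_mem
      (fun d _ => by rw [one_mul, mul_one]) hx' (by rw [one_mul]; exact hx'c)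
    rw [one_mul] at hnx
    have hx'o : ¬ p ∣ orderOf x' := by
      rw [← hnx, DGN_order]
      exact hx
    have hx'D : ∀ d ∈ D, d * x' = x' * d := fun d hd =>
      (Subgroup.mem_centralizer_iff.1 hx') d hd
    have hset : {z' : G | z' ∈ D ∧ (∀ d ∈ D, z' * d = d * z') ∧ z' * x' ∈ conjugatesOf (z * x)} =
        (fun t => n * t * n⁻¹) '' {z' : G | ∃ k ∈ Subgroup.normalizer (D : Set G) ⊓
          Subgroup.centralizer {x}, k * z * k⁻¹ = z'} := by
      ext z'
      constructor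
      · rintro ⟨h1, h2, h3⟩
        have h4 : z' * x' ∈ cz D := (cz D).mul_mem (hczmem z' h2) hx'
        obtain ⟨n₁, hn₁, h5⟩ := DGN_key hx hD hpD hcard hz hzD h4 h3
        obtain ⟨k₁, hk₁⟩ := DGN_pow hpD (DGN_nz_conj hn₁ hz)
        obtain ⟨k₂, hk₂⟩ := DGN_pow hpD h1
        have h6 : n₁ * z * n₁⁻¹ * (n₁ * x * n₁⁻¹) = z' * x' := by
          rw [← h5]
          group
        have h7 : Commute (n₁ * z * n₁⁻¹) (n₁ * x * n₁⁻¹) := by
          have := hzx.map (MulAut.conj n₁).toMonoidHom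
          exact this
        obtain ⟨e1, e2⟩ := DGN_uniq hp hk₁ hk₂ (by rw [DGN_order]; exact hx) hx'o h7
          (hx'D z' h1) h6
        refine ⟨(n⁻¹ * n₁) * z * (n⁻¹ * n₁)⁻¹, ⟨n⁻¹ * n₁, ⟨?_, ?_⟩, rfl⟩, ?_⟩
        · exact (nz D).mul_mem ((nz D).inv_mem hn) hn₁
        · show n⁻¹ * n₁ ∈ Subgroup.centralizer ({x} : Set G)
          rw [Subgroup.mem_centralizer_iff]
          intro t ht
          rw [Set.mem_singleton_iff] at ht
          rw [ht]
          have h8 : n₁ * x * n₁⁻¹ = n * x * n⁻¹ := by rw [e2, hnx]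
          have h9 : n⁻¹ * n₁ * x = n⁻¹ * (n₁ * x * n₁⁻¹) * n₁ := by group
          rw [h9, h8]
          group
        · show n * (n⁻¹ * n₁ * z * (n⁻¹ * n₁)⁻¹) * n⁻¹ = z'
          rw [← e1]
          group
      · rintro ⟨_, ⟨k, ⟨hk1, hk2⟩, rfl⟩, rfl⟩
        have hk2' : x * k = k * x := by
          have : k ∈ Subgroup.centralizer ({x} : Set G) := hk2
          rw [Subgroup.mem_centralizer_iff] at this
          exact this x rfl
        have hnk : n * k ∈ nz D := (nz D).mul_mem hn hk1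
        have e1 : n * (k * z * k⁻¹) * n⁻¹ = (n * k) * z * (n * k)⁻¹ := by group
        show n * (k * z * k⁻¹) * n⁻¹ ∈ D ∧
          (∀ d ∈ D, n * (k * z * k⁻¹) * n⁻¹ * d = d * (n * (k * z * k⁻¹) * n⁻¹)) ∧
          n * (k * z * k⁻¹) * n⁻¹ * x' ∈ conjugatesOf (z * x)
        rw [e1]
        refine ⟨DGN_nz_conj hnk hz, DGN_central hnk hzD, ?_⟩
        rw [← hnx]
        refine isConj_iff.2 ⟨n * k, ?_⟩
        have h8 : n * k * (z * x) * (n * k)⁻¹ = n * (k * z) * (x * k⁻¹) * n⁻¹ := by group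
        have h9 : x * k⁻¹ = k⁻¹ * x := by
          rw [eq_inv_mul_iff_mul_eq, ← mul_assoc, ← hk2', mul_inv_cancel_right]
        rw [h8, h9]
        group
    have h1 : Nat.card {z' : G // z' ∈ D ∧ (∀ d ∈ D, z' * d = d * z') ∧
        z' * x' ∈ conjugatesOf (z * x)} = {z' : G | z' ∈ D ∧ (∀ d ∈ D, z' * d = d * z') ∧
        z' * x' ∈ conjugatesOf (z * x)}.ncard := Nat.card_coe_set_eq _
    rw [h1, hset]
    refine Set.ncard_image_of_injective _ ?_
    intro a b hab
    exact (MulAut.conj n).injective hab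
  · intro y hy hyc
    obtain ⟨n, hn, hny⟩ := DGN_key hx hD hpD hcard hz hzD hy hyc
    refine ⟨n * z * n⁻¹, DGN_nz_conj hn hz, n * x * n⁻¹, ?_, DGN_central hn hzD, ?_, ?_⟩
    · exact hczmem _ (DGN_central hn hxD)
    · exact isConj_iff.2 ⟨n, rfl⟩
    · rw [← hny]
      group

end Pool.Agent.OB
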