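import Pool.Agent.helper12.OB.SpecB

set_option autoImplicit false

namespace Pool.Agent.OB

open Pool.Agent.helper58.DC Pool.Agent.DI Pool.Agent.GR

section

variable {G : Type} [Group G]

theorem DBL_qq_conj {n : ℕ} (g : G) (z : Fin n → G) :
    qq (fun j => g * z j * g⁻¹) = g * qq z * g⁻¹ := by
  unfold qq
  have h : (fun j => g * z j * g⁻¹) = (MulAut.conj g) ∘ z := by
    funext j
    rfl
  rw [h, ← List.map_ofFn, ← map_list_prod]
  rfl

theorem DBL_qq_last (a : ℕ → G) (k : ℕ) :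
    qq (fun i : Fin (k + 1) => a i) = qq (fun i : Fin k => a i) * a k := by
  unfold qq
  rw [List.ofFn_succ']
  simp

theorem DBL_qq_first (a : ℕ → G) (k : ℕ) :
    qq (fun i : Fin (k + 1) => a i) = a 0 * qq (fun i : Fin k => a (i + 1)) := by
  unfold qq
  rw [List.ofFn_succ]
  simp

theorem DBL_qq_shift (a : ℕ → G) (k : ℕ) :
    qq (fun i : Fin k => a (i + 1)) = (a 0)⁻¹ * qq (fun i : Fin k => a i) * a k := by
  have h1 := DBL_qq_last a k
  have h2 := DBL_qq_first a k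
  rw [h1] at h2
  rw [mul_assoc, h2, inv_mul_cancel_left]

theorem DBL_prod_shift (b : ℕ → ℂ) (k : ℕ) (hb : b k = b 0) :
    ∏ i : Fin k, b (i + 1) = ∏ i : Fin k, b i := by
  rcases k with _ | k
  · simp
  · rw [Fin.prod_univ_castSucc, Fin.prod_univ_succ]
    simp only [Fin.val_last, Fin.val_castSucc, Fin.val_zero, Fin.val_succ]
    rw [hb, mul_comm]

theorem DBL_tp_conj (p : ℕ) (g x : G) : tp p (g * x * g⁻¹) = tp p x := by
  unfold tp
  have h : (g * x * g⁻¹) ^ p = 1 ↔ x ^ p = 1 := by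
    rw [conj_pow]
    constructor
    · intro h
      have h2 : g⁻¹ * (g * x ^ p * g⁻¹) * g = g⁻¹ * 1 * g := by rw [h]
      simpa [mul_assoc] using h2
    · intro h
      rw [h]
      simp
  by_cases hx : x ^ p = 1
  · rw [if_pos hx, if_pos (h.mpr hx)]
  · rw [if_neg hx, if_neg (fun h2 => hx (h.mp h2))]

theorem DBL_tp_pow (p : ℕ) (x : G) {m : ℕ} (hm : m ≠ 0) : (tp p x) ^ m = tp p x := by
  unfold tp
  split_ifs
  · simp
  · simp [hm]

/-- the components of the iterates of the covering transformation -/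
def DBL_hat {p n : ℕ} (hp : 0 < p) (x : (Fin p → Fin n → G) × G) (m : ℕ) : Fin n → G :=
  fun j => x.2 ^ (m / p) * x.1 ⟨m % p, Nat.mod_lt m hp⟩ j * (x.2 ^ (m / p))⁻¹

theorem DBL_hat_lt {p n : ℕ} (hp : 0 < p) (x : (Fin p → Fin n → G) × G) (i : Fin p) :
    DBL_hat hp x i = x.1 i := by
  funext j
  have h1 : (i : ℕ) / p = 0 := Nat.div_eq_of_lt i.2
  have h2 : (⟨(i : ℕ) % p, Nat.mod_lt i hp⟩ : Fin p) = i := Fin.ext (Nat.mod_eq_of_lt i.2)
  simp [DBL_hat, h1, h2]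

theorem DBL_hat_add {p n : ℕ} (hp : 0 < p) (x : (Fin p → Fin n → G) × G) (m q : ℕ) (j : Fin n) :
    DBL_hat hp x (m + p * q) j = x.2 ^ q * DBL_hat hp x m j * (x.2 ^ q)⁻¹ := by
  have h1 : (m + p * q) / p = q + m / p := by
    rw [Nat.add_mul_div_left _ _ hp, add_comm]
  have h2 : (⟨(m + p * q) % p, Nat.mod_lt _ hp⟩ : Fin p) = ⟨m % p, Nat.mod_lt _ hp⟩ :=
    Fin.ext (Nat.add_mul_mod_self_left m p q)
  simp only [DBL_hat]
  rw [h1, h2, pow_add]
  group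

/-- the covering transformation -/
def DBL_sg {p n : ℕ} (hp : 0 < p) (x : (Fin p → Fin n → G) × G) : (Fin p → Fin n → G) × G :=
  (fun i => DBL_hat hp x (i + 1), x.2)

theorem DBL_hat_sg {p n : ℕ} (hp : 0 < p) (x : (Fin p → Fin n → G) × G) (m : ℕ) :
    DBL_hat hp (DBL_sg hp x) m = DBL_hat hp x (m + 1) := by
  funext j
  have h1 : m + 1 = (m % p + 1) + p * (m / p) := by
    have := Nat.mod_add_div m p
    omega
  rw [h1, DBL_hat_add]
  rfl

theorem DBL_iter {p n : ℕ} (hp : 0 < p) (x : (Fin p → Fin n → G) × G) (k : ℕ) :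
    ((DBL_sg hp)^[k] x).2 = x.2 ∧
      ∀ m, DBL_hat hp ((DBL_sg hp)^[k] x) m = DBL_hat hp x (m + k) := by
  induction k with
  | zero => exact ⟨rfl, fun m => rfl⟩
  | succ k ih =>
    rw [Function.iterate_succ_apply']
    refine ⟨ih.1, fun m => ?_⟩
    rw [DBL_hat_sg, ih.2]
    congr 1
    omega

/-- the action by conjugation -/
def DBL_act (p n : ℕ) : G →* Equiv.Perm ((Fin p → Fin n → G) × G) where
  toFun g :=
    { toFun := fun x => (fun i j => g * x.1 i j * g⁻¹, g * x.2 * g⁻¹)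
      invFun := fun x => (fun i j => g⁻¹ * x.1 i j * g, g⁻¹ * x.2 * g)
      left_inv := by
        intro x
        simp [mul_assoc]
      right_inv := by
        intro x
        simp [mul_assoc] }
  map_one' := by
    ext x <;> simp
  map_mul' g h := by
    ext x <;> simp [mul_assoc]

theorem DBL_act_apply {p n : ℕ} (g : G) (x : (Fin p → Fin n → G) × G) :
    DBL_act p n g x = (fun i j => g * x.1 i j * g⁻¹, g * x.2 * g⁻¹) := rfl

/-- the set of the entries -/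
def DBL_set {p n : ℕ} (x : (Fin p → Fin n → G) × G) : Set G :=
  (⋃ i, Set.range (x.1 i)) ∪ {x.2}

theorem DBL_set_act {p n : ℕ} (g : G) (x : (Fin p → Fin n → G) × G) :
    DBL_set (DBL_act p n g x) = (MulAut.conj g).toMonoidHom '' DBL_set x := by
  unfold DBL_set
  rw [Set.image_union, Set.image_iUnion, Set.image_singleton]
  congr 1
  refine Set.iUnion_congr fun i => ?_
  rw [← Set.range_comp]
  rfl

theorem DBL_hat_act {p n : ℕ} (hp : 0 < p) (g : G) (x : (Fin p → Fin n → G) × G) (m : ℕ) :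
    DBL_hat hp (DBL_act p n g x) m = fun j => g * DBL_hat hp x m j * g⁻¹ := by
  funext j
  simp only [DBL_hat, DBL_act_apply]
  rw [conj_pow]
  group

theorem DBL_S_mem {p n : ℕ} (x : (Fin p → Fin n → G) × G) :
    x.2 ∈ Subgroup.closure (DBL_set x) :=
  Subgroup.subset_closure (Or.inr rfl)

theorem DBL_hat_mem {p n : ℕ} (hp : 0 < p) (x : (Fin p → Fin n → G) × G) (m : ℕ) (j : Fin n) :
    DBL_hat hp x m j ∈ Subgroup.closure (DBL_set x) := by
  have hS := DBL_S_mem x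
  unfold DBL_hat
  refine Subgroup.mul_mem _ (Subgroup.mul_mem _ (Subgroup.pow_mem _ hS _) ?_)
    (Subgroup.inv_mem _ (Subgroup.pow_mem _ hS _))
  exact Subgroup.subset_closure (Or.inl (Set.mem_iUnion.mpr ⟨_, ⟨j, rfl⟩⟩))

theorem DBL_gen_sg {p n : ℕ} (hp : 0 < p) (x : (Fin p → Fin n → G) × G) :
    Subgroup.closure (DBL_set (DBL_sg hp x)) = Subgroup.closure (DBL_set x) := by
  apply le_antisymm
  · rw [Subgroup.closure_le]
    rintro y (hy | hy)
    · obtain ⟨i, j, rfl⟩ := Set.mem_iUnion.mp hy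
      exact DBL_hat_mem hp x _ j
    · rw [Set.mem_singleton_iff] at hy
      rw [hy]
      exact DBL_S_mem x
  · rw [Subgroup.closure_le]
    have hS : x.2 ∈ Subgroup.closure (DBL_set (DBL_sg hp x)) := DBL_S_mem (DBL_sg hp x)
    have hmem : ∀ m j, DBL_hat hp x (m + 1) j ∈ Subgroup.closure (DBL_set (DBL_sg hp x)) := by
      intro m j
      rw [← DBL_hat_sg]
      exact DBL_hat_mem hp _ m j
    rintro y (hy | hy)
    · obtain ⟨i, j, rfl⟩ := Set.mem_iUnion.mp hy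
      rw [← DBL_hat_lt hp x i]
      have h1 := hmem ((i : ℕ) + p - 1) j
      have h2 : (i : ℕ) + p - 1 + 1 = i + p * 1 := by omega
      rw [h2, DBL_hat_add, pow_one] at h1
      have h3 := Subgroup.mul_mem _ (Subgroup.mul_mem _ (Subgroup.inv_mem _ hS) h1) hS
      have h4 : x.2⁻¹ * (x.2 * DBL_hat hp x i j * x.2⁻¹) * x.2 = DBL_hat hp x i j := by group
      rw [h4] at h3
      exact h3
    · rw [Set.mem_singleton_iff] at hy
      rw [hy]
      exact hS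

theorem DBL_fix {p n : ℕ} (g : G) (x : (Fin p → Fin n → G) × G) :
    DBL_act p n g x = x ↔ g ∈ cz (Subgroup.closure (DBL_set x)) := by
  unfold cz
  rw [Subgroup.centralizer_closure, Subgroup.mem_centralizer_iff]
  constructor
  · intro h y hy
    rcases hy with hy | hy
    · obtain ⟨i, j, rfl⟩ := Set.mem_iUnion.mp hy
      have h1 := congrFun (congrFun (congrArg Prod.fst h) i) j
      simp only [DBL_act_apply] at h1
      rw [mul_inv_eq_iff_eq_mul] at h1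
      exact h1.symm
    · rw [Set.mem_singleton_iff] at hy
      rw [hy]
      have h1 := congrArg Prod.snd h
      simp only [DBL_act_apply] at h1
      rw [mul_inv_eq_iff_eq_mul] at h1
      exact h1.symm
  · intro h
    rw [DBL_act_apply]
    refine Prod.ext ?_ ?_
    · funext i j
      have h1 := h (x.1 i j) (Or.inl (Set.mem_iUnion.mpr ⟨i, j, rfl⟩))
      show g * x.1 i j * g⁻¹ = x.1 i j
      rw [← h1, mul_inv_cancel_right]
    · have h1 := h x.2 (Or.inr rfl)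
      show g * x.2 * g⁻¹ = x.2
      rw [← h1, mul_inv_cancel_right]

/-- the configuration -/
def DBL_cfg {p : ℕ} (n : ℕ) (hp : 0 < p) : Cfg p G ((Fin p → Fin n → G) × G) where
  act := DBL_act p n
  gen x := Subgroup.closure (DBL_set x)
  gen_act g x := by
    rw [DBL_set_act]
    unfold cj
    rw [MonoidHom.map_closure]
  fix g x := DBL_fix g x
  σ := DBL_sg hp
  κ x := x.2
  σ_act g x := by
    unfold DBL_sg
    refine Prod.ext ?_ rfl
    funext i
    show DBL_hat hp (DBL_act p n g x) (i + 1) = _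
    rw [DBL_hat_act]
    rfl
  gen_σ x := DBL_gen_sg hp x
  κ_mem x := DBL_S_mem x
  σ_pow x := by
    have h1 := DBL_iter hp x p
    refine Prod.ext ?_ ?_
    · funext i
      rw [← DBL_hat_lt hp _ i, h1.2]
      funext j
      have h2 : (i : ℕ) + p = i + p * 1 := by omega
      rw [h2, DBL_hat_add, pow_one, DBL_hat_lt]
      rfl
    · rw [h1.1]
      show x.2 = x.2 * x.2 * x.2⁻¹
      group
  κ_σ x := rfl
  κ_act g x := rfl

/-- the word upstairs -/
def DBL_word {p n : ℕ} (x : (Fin p → Fin n → G) × G) : G := qq (fun i => qq (x.1 i)) * x.2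

/-- the weight -/
noncomputable def DBL_th (p : ℕ) {n : ℕ} (g₁ g₂ : G → ℂ) (x : (Fin p → Fin n → G) × G) : ℂ :=
  g₁ x.2 * g₂ (DBL_word x)⁻¹ * ∏ i, ∏ j, tp p (x.1 i j)

theorem DBL_word_act {p n : ℕ} (g : G) (x : (Fin p → Fin n → G) × G) :
    DBL_word (DBL_act p n g x) = g * DBL_word x * g⁻¹ := by
  unfold DBL_word
  rw [DBL_act_apply]
  simp only [DBL_qq_conj]
  group

theorem DBL_word_sg {p n : ℕ} (hp : 0 < p) (x : (Fin p → Fin n → G) × G) :
    DBL_word (DBL_sg hp x) = (qq (x.1 ⟨0, hp⟩))⁻¹ * DBL_word x * qq (x.1 ⟨0, hp⟩) := by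
  unfold DBL_word
  have h1 := DBL_qq_shift (fun m => qq (DBL_hat hp x m)) p
  have h2 : qq (DBL_hat hp x 0) = qq (x.1 ⟨0, hp⟩) := by
    have := DBL_hat_lt hp x ⟨0, hp⟩
    simp only at this
    rw [this]
  have h3 : qq (DBL_hat hp x p) = x.2 * qq (x.1 ⟨0, hp⟩) * x.2⁻¹ := by
    have h4 : DBL_hat hp x p = fun j => x.2 * DBL_hat hp x 0 j * x.2⁻¹ := by
      funext j
      have h5 := DBL_hat_add hp x 0 1 j
      rw [pow_one, Nat.zero_add, Nat.mul_one] at h5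
      exact h5
    rw [h4, DBL_qq_conj, h2]
  have h6 : (fun i : Fin p => qq (DBL_hat hp x (i : ℕ))) = fun i => qq (x.1 i) := by
    funext i
    rw [DBL_hat_lt]
  rw [h2, h3, h6] at h1
  show qq (fun i : Fin p => qq (DBL_hat hp x ((i : ℕ) + 1))) * x.2 = _
  rw [h1]
  group

theorem DBL_tp_sg {p n : ℕ} (hp : 0 < p) (x : (Fin p → Fin n → G) × G) :
    ∏ i, ∏ j, tp p ((DBL_sg hp x).1 i j) = ∏ i, ∏ j, tp p (x.1 i j) := by
  have h1 := DBL_prod_shift (fun m => ∏ j, tp p (DBL_hat hp x m j)) p (by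
    refine Finset.prod_congr rfl fun j _ => ?_
    have h5 := DBL_hat_add hp x 0 1 j
    rw [pow_one, Nat.zero_add, Nat.mul_one] at h5
    rw [h5, DBL_tp_conj])
  have h6 : (fun i : Fin p => ∏ j, tp p (DBL_hat hp x (i : ℕ) j)) =
      fun i => ∏ j, tp p (x.1 i j) := by
    funext i
    rw [DBL_hat_lt]
  rw [h6] at h1
  exact h1

theorem DBL_th_act {p n : ℕ} {M : Ideal (integralClosure ℤ ℂ)} {g₁ g₂ : G → ℂ}
    (h₁ : ClF M g₁) (h₂ : ClF M g₂) (g : G) (x : (Fin p → Fin n → G) × G) :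
    DBL_th p g₁ g₂ (DBL_act p n g x) = DBL_th p g₁ g₂ x := by
  unfold DBL_th
  rw [DBL_word_act]
  have e1 : g₁ (DBL_act p n g x).2 = g₁ x.2 := h₁.cls x.2 g
  have e2 : g₂ (g * DBL_word x * g⁻¹)⁻¹ = g₂ (DBL_word x)⁻¹ := by
    have h3 : (g * DBL_word x * g⁻¹)⁻¹ = g * (DBL_word x)⁻¹ * g⁻¹ := by group
    rw [h3, h₂.cls]
  rw [e1, e2]
  congr 1
  refine Finset.prod_congr rfl fun i _ => Finset.prod_congr rfl fun j _ => ?_
  exact DBL_tp_conj p g (x.1 i j)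

theorem DBL_th_sg {p n : ℕ} (hp : 0 < p) {M : Ideal (integralClosure ℤ ℂ)} {g₁ g₂ : G → ℂ}
    (h₂ : ClF M g₂) (x : (Fin p → Fin n → G) × G) :
    DBL_th p g₁ g₂ (DBL_sg hp x) = DBL_th p g₁ g₂ x := by
  unfold DBL_th
  rw [DBL_word_sg, DBL_tp_sg]
  have e1 : g₁ (DBL_sg hp x).2 = g₁ x.2 := rfl
  have e2 : g₂ ((qq (x.1 ⟨0, hp⟩))⁻¹ * DBL_word x * qq (x.1 ⟨0, hp⟩))⁻¹ = g₂ (DBL_word x)⁻¹ := by
    have h3 : ((qq (x.1 ⟨0, hp⟩))⁻¹ * DBL_word x * qq (x.1 ⟨0, hp⟩))⁻¹ =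
        (qq (x.1 ⟨0, hp⟩))⁻¹ * (DBL_word x)⁻¹ * ((qq (x.1 ⟨0, hp⟩))⁻¹)⁻¹ := by group
    rw [h3, h₂.cls]
  rw [e1, e2]

theorem DBL_tp_int {p : ℕ} {M : Ideal (integralClosure ℤ ℂ)} (hM : Setup p M) (k : ℕ) (x : G) :
    IntAt M (tp k x) := by
  unfold tp
  split_ifs
  · exact IntAt.one hM
  · exact IntAt.zero hM

theorem DBL_th_int {p n : ℕ} {M : Ideal (integralClosure ℤ ℂ)} (hM : Setup p M) {g₁ g₂ : G → ℂ}
    (h₁ : ClF M g₁) (h₂ : ClF M g₂) (x : (Fin p → Fin n → G) × G) :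
    IntAt M (DBL_th p g₁ g₂ x) := by
  unfold DBL_th
  refine IntAt.mul hM (IntAt.mul hM (h₁.int _) (h₂.int _)) ?_
  exact IntAt.prod hM _ fun i _ => IntAt.prod hM _ fun j _ => DBL_tp_int hM p _

theorem DBL_up (hBLK : BLK_stmt) (p n : ℕ) (g₁ g₂ : G → ℂ) :
    ∑ᶠ x : (Fin p → Fin n → G) × G, DBL_th p g₁ g₂ x * (W p (Subgroup.closure (DBL_set x)) : ℂ) =
      Sp p g₁ g₂ (p * n) := by
  obtain ⟨ε, hε1, hε2, hε3, -⟩ := hBLK G p p n
  unfold Sp
  refine finsum_eq_of_bijective (ε.prodCongr (Equiv.refl G)) (Equiv.bijective _) ?_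
  intro x
  have e1 : (ε.prodCongr (Equiv.refl G)) x = (ε x.1, x.2) := rfl
  rw [e1]
  unfold DBL_th DBL_word DBL_set
  simp only
  rw [hε1, hε2, hε3]

/-- the parametrisation of the pairs downstairs -/
def DBL_phi (p n : ℕ) (y : (Fin n → G) × G) : ((Fin p → Fin n → G) × G) × G :=
  ((fun i j => y.2 ^ (i : ℕ) * y.1 j * (y.2 ^ (i : ℕ))⁻¹, y.2 ^ p), y.2)

theorem DBL_phi_inj {p n : ℕ} (hp : 0 < p) : Function.Injective (DBL_phi (G := G) p n) := by
  intro y y' h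
  have h1 : y.2 = y'.2 := by
    have h0 := congrArg Prod.snd h
    exact h0
  refine Prod.ext ?_ h1
  funext j
  have h2 := congrFun (congrFun (congrArg (fun t => t.1.1) h) ⟨0, hp⟩) j
  simpa [DBL_phi] using h2

theorem DBL_hat_phi {p n : ℕ} (hp : 0 < p) (y : (Fin n → G) × G) (m : ℕ) :
    DBL_hat hp (DBL_phi p n y).1 m = fun j => y.2 ^ m * y.1 j * (y.2 ^ m)⁻¹ := by
  funext j
  simp only [DBL_hat, DBL_phi]
  have h1 : y.2 ^ m = (y.2 ^ p) ^ (m / p) * y.2 ^ (m % p) := by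
    rw [← pow_mul, ← pow_add, Nat.div_add_mod]
  rw [h1]
  group

theorem DBL_phi_range {p n : ℕ} (hp : 0 < p) :
    {z : ((Fin p → Fin n → G) × G) × G | DBL_act p n z.2 z.1 = DBL_sg hp z.1 ∧ z.2 ^ p = z.1.2} =
      Set.range (DBL_phi (G := G) p n) := by
  ext z
  constructor
  · rintro ⟨h1, h2⟩
    have hz : ∀ m, m < p → ∀ j, DBL_hat hp z.1 m j =
        z.2 ^ m * z.1.1 ⟨0, hp⟩ j * (z.2 ^ m)⁻¹ := by
      intro m
      induction m with
      | zero =>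
        intro _ j
        have := DBL_hat_lt hp z.1 ⟨0, hp⟩
        simp only at this
        rw [this]
        simp
      | succ m ih =>
        intro hm j
        have h3 := congrFun (congrFun (congrArg Prod.fst h1) ⟨m, by omega⟩) j
        have h4 : DBL_hat hp z.1 (m + 1) j = z.2 * z.1.1 ⟨m, by omega⟩ j * z.2⁻¹ := h3.symm
        have h5 := congrFun (DBL_hat_lt hp z.1 ⟨m, by omega⟩) j
        simp only at h5
        rw [h4, ← h5, ih (by omega) j, pow_succ']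
        group
    refine ⟨(z.1.1 ⟨0, hp⟩, z.2), ?_⟩
    refine Prod.ext (Prod.ext ?_ ?_) rfl
    · funext i j
      show z.2 ^ (i : ℕ) * z.1.1 ⟨0, hp⟩ j * (z.2 ^ (i : ℕ))⁻¹ = z.1.1 i j
      rw [← hz i i.2 j, DBL_hat_lt]
    · exact h2
  · rintro ⟨y, rfl⟩
    refine ⟨?_, rfl⟩
    refine Prod.ext ?_ ?_
    · funext i
      show _ = DBL_hat hp (DBL_phi p n y).1 ((i : ℕ) + 1)
      rw [DBL_hat_phi]
      funext j
      show y.2 * (y.2 ^ (i : ℕ) * y.1 j * (y.2 ^ (i : ℕ))⁻¹) * y.2⁻¹ =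
        y.2 ^ ((i : ℕ) + 1) * y.1 j * (y.2 ^ ((i : ℕ) + 1))⁻¹
      rw [pow_succ']
      group
    · show y.2 * y.2 ^ p * y.2⁻¹ = y.2 ^ p
      rw [← pow_succ', pow_succ, mul_inv_cancel_right]

theorem DBL_qq_pow (q s : G) (k : ℕ) :
    qq (fun i : Fin k => s ^ (i : ℕ) * q * (s ^ (i : ℕ))⁻¹) * s ^ k = (q * s) ^ k := by
  induction k with
  | zero => simp [qq]
  | succ k ih =>
    have h1 := DBL_qq_last (fun m => s ^ m * q * (s ^ m)⁻¹) k
    rw [h1, pow_succ (q * s) k, ← ih, pow_succ s k]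
    group

theorem DBL_word_phi {p n : ℕ} (y : (Fin n → G) × G) :
    DBL_word (DBL_phi p n y).1 = (qq y.1 * y.2) ^ p := by
  unfold DBL_word
  have h1 : (fun i => qq ((DBL_phi p n y).1.1 i)) =
      fun i : Fin p => y.2 ^ (i : ℕ) * qq y.1 * (y.2 ^ (i : ℕ))⁻¹ := by
    funext i
    exact DBL_qq_conj (y.2 ^ (i : ℕ)) y.1
  rw [h1]
  exact DBL_qq_pow (qq y.1) y.2 p

theorem DBL_th_phi {p n : ℕ} (hp : 0 < p) (g₁ g₂ : G → ℂ) (y : (Fin n → G) × G) :
    DBL_th p g₁ g₂ (DBL_phi p n y).1 =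
      pw p g₁ y.2 * pw p g₂ (qq y.1 * y.2)⁻¹ * ∏ j, tp p (y.1 j) := by
  unfold DBL_th pw
  rw [DBL_word_phi, inv_pow]
  have e1 : (DBL_phi p n y).1.2 = y.2 ^ p := rfl
  rw [e1]
  congr 1
  have e2 : ∀ i : Fin p, ∏ j, tp p ((DBL_phi p n y).1.1 i j) = ∏ j, tp p (y.1 j) := by
    intro i
    refine Finset.prod_congr rfl fun j _ => ?_
    exact DBL_tp_conj p (y.2 ^ (i : ℕ)) (y.1 j)
  simp only [e2]
  rw [Finset.prod_const, Finset.card_univ, Fintype.card_fin, ← Finset.prod_pow]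
  refine Finset.prod_congr rfl fun j _ => ?_
  exact DBL_tp_pow p _ hp.ne'

theorem DBL_gen_phi {p n : ℕ} (hp : 0 < p) (y : (Fin n → G) × G) :
    Subgroup.closure (DBL_set (DBL_phi p n y).1) ⊔ Subgroup.zpowers y.2 =
      Subgroup.closure (Set.range y.1 ∪ {y.2}) := by
  have hs : y.2 ∈ Subgroup.closure (Set.range y.1 ∪ {y.2}) :=
    Subgroup.subset_closure (Or.inr rfl)
  have hy : ∀ j, y.1 j ∈ Subgroup.closure (Set.range y.1 ∪ {y.2}) := fun j =>
    Subgroup.subset_closure (Or.inl ⟨j, rfl⟩)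
  apply le_antisymm
  · refine sup_le ?_ ?_
    · rw [Subgroup.closure_le]
      rintro t (ht | ht)
      · obtain ⟨i, j, rfl⟩ := Set.mem_iUnion.mp ht
        exact Subgroup.mul_mem _ (Subgroup.mul_mem _ (Subgroup.pow_mem _ hs _) (hy j))
          (Subgroup.inv_mem _ (Subgroup.pow_mem _ hs _))
      · rw [Set.mem_singleton_iff] at ht
        rw [ht]
        exact Subgroup.pow_mem _ hs p
    · rw [Subgroup.zpowers_le]
      exact hs
  · rw [Subgroup.closure_le]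
    rintro t (ht | ht)
    · obtain ⟨j, rfl⟩ := ht
      refine Subgroup.mem_sup_left (Subgroup.subset_closure (Or.inl ?_))
      refine Set.mem_iUnion.mpr ⟨⟨0, hp⟩, j, ?_⟩
      simp [DBL_phi]
    · rw [Set.mem_singleton_iff] at ht
      rw [ht]
      exact Subgroup.mem_sup_right (Subgroup.mem_zpowers y.2)

theorem DBL_down {p n : ℕ} (hp : 0 < p) (g₁ g₂ : G → ℂ) :
    ∑ᶠ z ∈ {z : ((Fin p → Fin n → G) × G) × G |
        DBL_act p n z.2 z.1 = DBL_sg hp z.1 ∧ z.2 ^ p = z.1.2},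
      DBL_th p g₁ g₂ z.1 *
        (W p (Subgroup.closure (DBL_set z.1) ⊔ Subgroup.zpowers z.2) : ℂ) =
      Sp p (pw p g₁) (pw p g₂) n := by
  rw [DBL_phi_range hp, finsum_mem_range (DBL_phi_inj hp)]
  unfold Sp
  refine finsum_congr fun y => ?_
  have e1 : (DBL_phi p n y).2 = y.2 := rfl
  rw [DBL_th_phi hp, e1, DBL_gen_phi hp]

end

theorem DBL (hLDB : LDB_stmt) (hBLK : BLK_stmt) : DBL_stmt := by
  intro p M hM G _ _ n g₁ g₂ h₁ h₂
  have hp : 0 < p := hM.pr.pos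
  obtain ⟨w, hw, he⟩ := hLDB p M hM G ((Fin p → Fin n → G) × G) (DBL_cfg n hp)
    (DBL_th p g₁ g₂) (DBL_th_int hM h₁ h₂) (DBL_th_act h₁ h₂) (DBL_th_sg hp h₂)
  have e1 : (∑ᶠ x : (Fin p → Fin n → G) × G, DBL_th p g₁ g₂ x *
      (W p ((DBL_cfg (G := G) n hp).gen x) : ℂ)) = Sp p g₁ g₂ (p * n) := DBL_up hBLK p n g₁ g₂
  have e2 : (∑ᶠ z ∈ {z : ((Fin p → Fin n → G) × G) × G |
      (DBL_cfg (G := G) n hp).act z.2 z.1 = (DBL_cfg (G := G) n hp).σ z.1 ∧
        z.2 ^ p = (DBL_cfg (G := G) n hp).κ z.1},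
      DBL_th p g₁ g₂ z.1 *
        (W p ((DBL_cfg (G := G) n hp).gen z.1 ⊔ Subgroup.zpowers z.2) : ℂ)) =
      Sp p (pw p g₁) (pw p g₂) n := DBL_down hp g₁ g₂
  rw [e1, e2] at he
  refine ⟨-((p : ℂ) * w), ?_, ?_⟩
  · refine InM.neg (InM.mul_right hM ?_ hw)
    have := InM.coe hM hM.mem
    simpa using this
  · have h3 : Sp p (pw p g₁) (pw p g₂) n - Sp p g₁ g₂ (p * n) =
        -(Sp p g₁ g₂ (p * n) - Sp p (pw p g₁) (pw p g₂) n) := by ring
    rw [h3, he]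
    push_cast
    ring

end Pool.Agent.OB
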